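import Mathlib
import Pool.Agent.H71R.Final

set_option autoImplicit false

namespace Pool.Agent.Results.MP_f92456_co.CircleCentreAndPair

/-- If every point of a finite family lies on the circle with centre `z` and radius `R > 0`, or is
`z`, or is `w`, or is the inverse of `w` in the circle, then the family is rationally approximable. -/
theorem result (n : ℕ) (p : Fin n → EuclideanSpace ℝ (Fin 2))
    (z w : EuclideanSpace ℝ (Fin 2)) (R : ℝ) (hR : 0 < R)
    (h : ∀ i, dist (p i) z = R ∨ p i = z ∨ p i = w ∨ p i = EuclideanGeometry.inversion z R w)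
    (ε : ℝ) (hε : 0 < ε) :
    ∃ q : Fin n → EuclideanSpace ℝ (Fin 2),
      (∀ i, dist (p i) (q i) < ε) ∧ ∀ i j, ∃ r : ℚ, dist (q i) (q j) = (r : ℝ) :=
  Pool.Agent.H71R.circle_case p hR h hε

end Pool.Agent.Results.MP_f92456_co.CircleCentreAndPair
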