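import Mathlib
import Pool.Agent.Hep65.Main

set_option autoImplicit false

/-!
The plane is `ℂ`. For complex numbers `A, B` put `C = -(A+B)`, so that `A, B, C` are the side vectors
of a triangle with sides `|A|, |B|, |C|` and medians `|A-B|/2, |B-C|/2, |C-A|/2`.
-/

namespace Pool.Agent.Results.MP_f92456_co.Heptagons

/-- The seven points `0, 2A², 2B², 2C², -AB, -BC, -CA`, where `C = -(A+B)`. -/
def hept (A B : ℂ) : Fin 7 → ℂ :=
  ![0, 2 * A ^ 2, 2 * B ^ 2, 2 * (A + B) ^ 2, -(A * B), B * (A + B), (A + B) * A]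

/-- The seven points `0, B²C², C²A², A²B², -2ABC², -2A²BC, -2AB²C`, where `C = -(A+B)`. -/
def hept' (A B : ℂ) : Fin 7 → ℂ :=
  ![0, B ^ 2 * (A + B) ^ 2, (A + B) ^ 2 * A ^ 2, A ^ 2 * B ^ 2, -(2 * A * B * (A + B) ^ 2),
    2 * A ^ 2 * B * (A + B), 2 * A * B ^ 2 * (A + B)]

/-- The six numbers `|A|, |B|, |C|, |A-B|, |B-C|, |C-A|` are rational, where `C = -(A+B)`. -/
def RatTriangle (A B : ℂ) : Prop :=
  (∃ r : ℚ, ‖A‖ = r) ∧ (∃ r : ℚ, ‖B‖ = r) ∧ (∃ r : ℚ, ‖A + B‖ = r) ∧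
    (∃ r : ℚ, ‖A - B‖ = r) ∧ (∃ r : ℚ, ‖A + 2 * B‖ = r) ∧ (∃ r : ℚ, ‖2 * A + B‖ = r)

/-- All distances between the seven points are rational. -/
def RatSet (P : Fin 7 → ℂ) : Prop :=
  ∀ i j, ∃ r : ℚ, dist (P i) (P j) = r

/-- The seven points are distinct, no three of them are on a line and no four on a circle. -/
def GenPos (P : Fin 7 → ℂ) : Prop :=
  Function.Injective P ∧
  (∀ i j k, i < j → j < k → ¬ Collinear ℝ ({P i, P j, P k} : Set ℂ)) ∧
  (∀ i j k l, i < j → j < k → k < l →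
    ¬ EuclideanGeometry.Cospherical ({P i, P j, P k, P l} : Set ℂ))

theorem genPos_of_good {P : Fin 7 → ℂ} (h : Pool.Agent.Hep65.Good P) : GenPos P := by
  have h2 : ∀ i j k, i < j → j < k → ¬ Collinear ℝ ({P i, P j, P k} : Set ℂ) :=
    fun i j k hij hjk hc => h.1 i j k hij hjk (Pool.Agent.Hep65.ori_eq_zero hc)
  have key : ∀ i j : Fin 7, i < j → P i ≠ P j := by
    intro i j hij he
    by_cases hj : j < 6
    · apply h2 i j 6 hij hj
      rw [he]
      simpa using collinear_pair ℝ (P j) (P 6)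
    · by_cases hi : 0 < i
      · apply h2 0 i j hi hij
        rw [he]
        simpa using collinear_pair ℝ (P 0) (P j)
      · have hi0 : i = 0 := by omega
        have hj6 : j = 6 := by omega
        subst hi0 hj6
        apply h2 0 1 6 (by decide) (by decide)
        rw [he]
        have : ({P 6, P 1, P 6} : Set ℂ) = {P 6, P 1} := by
          ext z; simp; tauto
        rw [this]
        exact collinear_pair ℝ (P 6) (P 1)
  refine ⟨?_, h2, fun i j k l hij hjk hkl hc =>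
    h.2 i j k l hij hjk hkl (Pool.Agent.Hep65.inc_eq_zero hc)⟩
  intro i j he
  rcases lt_trichotomy i j with hlt | heq | hgt
  · exact absurd he (key i j hlt)
  · exact heq
  · exact absurd he.symm (key j i hgt)

theorem ratTriangle_iff (A B : ℂ) :
    RatTriangle A B ↔ ∀ k : Fin 6, ∃ r : ℚ, ‖Pool.Agent.Hep65.frm A B k‖ = r := by
  constructor
  · rintro ⟨h1, h2, h3, h4, h5, h6⟩ k
    fin_cases k
    · exact h1
    · exact h2
    · exact h3
    · exact h4
    · exact h5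
    · exact h6
  · intro h
    exact ⟨h 0, h 1, h 2, h 3, h 4, h 5⟩

theorem main {F : ℂ → ℂ → Fin 7 → ℂ}
    (hF : ∀ {a b : ℝ → ℂ}, AnalyticOnNhd ℝ a Set.univ → AnalyticOnNhd ℝ b Set.univ →
      ∀ i, AnalyticOnNhd ℝ (fun t => F (a t) (b t) i) Set.univ)
    (hc : ∀ i, Continuous fun p : ℂ × ℂ => F p.1 p.2 i)
    (h0 : Pool.Agent.Hep65.Good (F 1 (-6 - 6 * Complex.I)))
    (hr : ∀ {A B : ℂ}, (∀ k : Fin 6, ∃ r : ℚ, ‖Pool.Agent.Hep65.frm A B k‖ = r) →
      ∀ i j : Fin 7, ∃ r : ℚ, dist (F A B i) (F A B j) = r) :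
    (∀ A B : ℂ, RatTriangle A B → RatSet (F A B)) ∧
    (∃ U : Set (ℂ × ℂ), IsOpen U ∧ Dense U ∧ ∀ p ∈ U, GenPos (F p.1 p.2)) ∧
    (∀ (A B : ℂ) (ε : ℝ), 0 < ε → ∃ A' B' : ℂ, dist A A' < ε ∧ dist B B' < ε ∧
      RatTriangle A' B' ∧ (∀ i, dist (F A B i) (F A' B' i) < ε) ∧
      RatSet (F A' B') ∧ GenPos (F A' B')) := by
  refine ⟨fun A B h => hr ((ratTriangle_iff A B).mp h), ?_, ?_⟩
  · obtain ⟨U, h1, h2, h3⟩ := Pool.Agent.Hep65.open_dense hF hc h0
    exact ⟨U, h1, h2, fun p hp => genPos_of_good (h3 p hp)⟩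
  · intro A B ε hε
    obtain ⟨A', B', h1, h2, h3, h4, h5, h6⟩ := Pool.Agent.Hep65.family hF hc h0 hr A B ε hε
    exact ⟨A', B', h1, h2, (ratTriangle_iff A' B').mpr h4, h3, h5, genPos_of_good h6⟩

/-- Both families consist of rationally approximable seven-point sets: every member is a limit of
rational members in general position. Almost every member is itself in general position, and a
triangle with rational sides and rational medians gives a rational member. -/
theorem result (F : ℂ → ℂ → Fin 7 → ℂ) (hF : F = hept ∨ F = hept') :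
    (∀ A B : ℂ, RatTriangle A B → RatSet (F A B)) ∧
    (∃ U : Set (ℂ × ℂ), IsOpen U ∧ Dense U ∧ ∀ p ∈ U, GenPos (F p.1 p.2)) ∧
    (∀ (A B : ℂ) (ε : ℝ), 0 < ε → ∃ A' B' : ℂ, dist A A' < ε ∧ dist B B' < ε ∧
      RatTriangle A' B' ∧ (∀ i, dist (F A B i) (F A' B' i) < ε) ∧
      RatSet (F A' B') ∧ GenPos (F A' B')) := by
  rcases hF with rfl | rfl
  · exact main (F := Pool.Agent.Hep65.hept) (fun ha hb i => Pool.Agent.Hep65.an_hept ha hb i)
      Pool.Agent.Hep65.continuous_hept Pool.Agent.Hep65.good_base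
      (fun h i j => Pool.Agent.Hep65.hept_dist_rat h i j)
  · exact main (F := Pool.Agent.Hep65.hept') (fun ha hb i => Pool.Agent.Hep65.an_hept' ha hb i)
      Pool.Agent.Hep65.continuous_hept' Pool.Agent.Hep65.good_base'
      (fun h i j => Pool.Agent.Hep65.hept'_dist_rat h i j)

end Pool.Agent.Results.MP_f92456_co.Heptagons
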