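import Mathlib
import Pool.Agent.H71R.Final

set_option autoImplicit false

namespace Pool.Agent.Results.MP_f92456_co.LineAndTwoPairs

/-- If every point of a finite family lies on the line through `x` and `y` or is one of `u`, `v` and
their mirror images in that line, then the family is rationally approximable. -/
theorem result (n : ℕ) (p : Fin n → EuclideanSpace ℝ (Fin 2))
    (x y u v : EuclideanSpace ℝ (Fin 2)) (hxy : x ≠ y)
    (h : ∀ i, p i ∈ line[ℝ, x, y] ∨
      p i = u ∨ p i = EuclideanGeometry.reflection line[ℝ, x, y] u ∨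
      p i = v ∨ p i = EuclideanGeometry.reflection line[ℝ, x, y] v)
    (ε : ℝ) (hε : 0 < ε) :
    ∃ q : Fin n → EuclideanSpace ℝ (Fin 2),
      (∀ i, dist (p i) (q i) < ε) ∧ ∀ i j, ∃ r : ℚ, dist (q i) (q j) = (r : ℝ) :=
  Pool.Agent.H71R.line_case p hxy h hε

end Pool.Agent.Results.MP_f92456_co.LineAndTwoPairs
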