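import Mathlib
import Pool.Agent.H52R.Six

set_option autoImplicit false

namespace Pool.Agent.Results.MP_f92456_co.SixDirections

/-- Let `o`, `u`, `v` be arbitrary vectors of the plane and let `p i = o + a i • u + b i • v` with
rational `a i`, `b i`. If every coordinate difference `(a i - a j, b i - b j)` is a rational multiple
of one of at most six nonzero vectors `d` of `ℚ × ℚ`, then `u` and `v` can be moved by less than any
`ε > 0` so that all distances between the new points are rational; in particular the family `p` is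
rationally approximable. -/
theorem result (n : ℕ) (o u v : EuclideanSpace ℝ (Fin 2)) (a b : Fin n → ℚ)
    (D : Finset (ℚ × ℚ)) (hD : D.card ≤ 6) (hD0 : ∀ d ∈ D, d ≠ 0)
    (h : ∀ i j, ∃ d ∈ D, (a i - a j) * d.2 = (b i - b j) * d.1)
    (ε : ℝ) (hε : 0 < ε) :
    ∃ u' v' : EuclideanSpace ℝ (Fin 2), dist u u' < ε ∧ dist v v' < ε ∧
      (∀ i, dist (o + (a i : ℝ) • u + (b i : ℝ) • v) (o + (a i : ℝ) • u' + (b i : ℝ) • v') < ε) ∧
      ∀ i j, ∃ r : ℚ,
        dist (o + (a i : ℝ) • u' + (b i : ℝ) • v') (o + (a j : ℝ) • u' + (b j : ℝ) • v') = (r : ℝ) :=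
  Pool.Agent.H52R.six_family o u v a b D hD hD0 h hε

end Pool.Agent.Results.MP_f92456_co.SixDirections
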